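import Pool.Agent.Lib_helper15.RankOne.Defs

/-! Rank one perturbations, module F: exploration. -/

set_option autoImplicit false

open MeasureTheory Metric Set

namespace Pool.Agent.RankOne

namespace Fmod

/-! ### The pigeonhole -/

lemma Wt_le (κ s : ℝ) (hκ : 0 < κ) (hs : 0 ≤ s) :
    Wt κ s ≤ 8 * κ / (κ + s) - 8 * (κ / 2) / (κ / 2 + s) := by
  have h1 : 0 < κ + s := by linarith
  have h2 : 0 < κ / 2 + s := by linarith
  have e : 8 * κ / (κ + s) - 8 * (κ / 2) / (κ / 2 + s) =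
      4 * κ * s / ((κ + s) * (κ / 2 + s)) := by
    field_simp
    ring
  rw [e]
  unfold Wt
  split_ifs with h
  · have hs0 : 0 < s := by linarith
    rcases le_total s (2 * κ) with h3 | h3
    · rw [max_eq_left h3, div_self (by positivity), le_div_iff₀ (by positivity)]
      nlinarith [mul_nonneg (sub_nonneg.2 h) (sub_nonneg.2 h3)]
    · rw [max_eq_right h3, div_le_div_iff₀ hs0 (by positivity)]
      have h4 : 0 ≤ κ * (2 * s ^ 2 - 3 * κ * s - κ ^ 2) := by
        apply mul_nonneg hκ.le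
        nlinarith
      nlinarith
  · positivity

lemma kap_pos (n : ℕ) : 0 < kap n := by unfold kap; positivity

lemma kap_succ (n : ℕ) : kap (n + 1) = kap n / 2 := by unfold kap; rw [pow_succ]; ring

lemma sum_Wt_le (s : ℝ) (hs : 0 ≤ s) (a b : ℕ) (hab : a ≤ b) :
    ∑ n ∈ Finset.Ico a b, Wt (kap n) s ≤ 8 := by
  have h1 : ∑ n ∈ Finset.Ico a b, Wt (kap n) s ≤
      8 * kap a / (kap a + s) - 8 * kap b / (kap b + s) := by
    induction b, hab using Nat.le_induction with
    | base => simp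
    | succ b hb ih =>
      rw [Finset.sum_Ico_succ_top hb]
      have h2 := Wt_le (kap b) s (kap_pos b) hs
      rw [kap_succ]
      linarith
  have h2 : 8 * kap a / (kap a + s) ≤ 8 := by
    rw [div_le_iff₀ (by have := kap_pos a; linarith)]
    have := kap_pos a
    nlinarith
  have h3 : 0 ≤ 8 * kap b / (kap b + s) := by
    have := kap_pos b
    positivity
  linarith

lemma Wt_nonneg (κ s : ℝ) (hκ : 0 < κ) : 0 ≤ Wt κ s := by
  unfold Wt
  split_ifs
  · have : 0 < max (2 * κ) s := lt_max_of_lt_left (by linarith)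
    positivity
  · exact le_rfl

lemma Wt_le_one (κ s : ℝ) (hκ : 0 < κ) : Wt κ s ≤ 1 := by
  unfold Wt
  split_ifs
  · have h : 0 < max (2 * κ) s := lt_max_of_lt_left (by linarith)
    rw [div_le_one h]
    exact le_max_left _ _
  · exact zero_le_one

lemma measurable_Wt (κ : ℝ) : Measurable (Wt κ) := by
  unfold Wt
  refine Measurable.ite (measurableSet_le measurable_const measurable_id) ?_ measurable_const
  exact measurable_const.div (measurable_const.max measurable_id)

lemma exists_n {X : Type*} [MeasurableSpace X] (m : Measure X) [IsFiniteMeasure m] (φ : X → ℂ)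
    (hφ : Measurable φ) (A : Set ℂ) (k : ℕ) :
    ∃ n, k ^ 3 ≤ n ∧ n < (k + 1) ^ 3 ∧ (∫ x, Wt (kap n) (infDist (φ x) A) ∂m) ≤
      8 * m.real univ / ((k + 1 : ℝ) ^ 3 - (k : ℝ) ^ 3) := by
  have hlt : k ^ 3 < (k + 1) ^ 3 := Nat.pow_lt_pow_left (Nat.lt_succ_self k) (by norm_num)
  have hint : ∀ n, Integrable (fun x => Wt (kap n) (infDist (φ x) A)) m := by
    intro n
    refine Integrable.of_bound (C := 1) ?_ (Filter.Eventually.of_forall fun x => ?_)
    · exact ((measurable_Wt _).comp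
        ((continuous_infDist_pt A).measurable.comp hφ)).aestronglyMeasurable
    · rw [Real.norm_eq_abs, abs_of_nonneg (Wt_nonneg _ _ (kap_pos n))]
      exact Wt_le_one _ _ (kap_pos n)
  have hsum : ∑ n ∈ Finset.Ico (k ^ 3) ((k + 1) ^ 3),
      (∫ x, Wt (kap n) (infDist (φ x) A) ∂m) ≤ 8 * m.real univ := by
    rw [← integral_finsetSum _ (fun n _ => hint n)]
    have h1 : ∫ x, ∑ n ∈ Finset.Ico (k ^ 3) ((k + 1) ^ 3), Wt (kap n) (infDist (φ x) A) ∂m ≤
        ∫ _, (8 : ℝ) ∂m := by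
      refine integral_mono (integrable_finsetSum _ fun n _ => hint n) (integrable_const _) ?_
      intro x
      exact sum_Wt_le _ infDist_nonneg _ _ hlt.le
    refine h1.trans_eq ?_
    rw [integral_const, smul_eq_mul, mul_comm]
  by_contra hcon
  push Not at hcon
  have hcard : (0 : ℝ) < (k + 1 : ℝ) ^ 3 - (k : ℝ) ^ 3 := by
    have : ((k ^ 3 : ℕ) : ℝ) < (((k + 1) ^ 3 : ℕ) : ℝ) := by exact_mod_cast hlt
    push_cast at this
    linarith
  have h2 : ∑ _n ∈ Finset.Ico (k ^ 3) ((k + 1) ^ 3),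
      (8 * m.real univ / ((k + 1 : ℝ) ^ 3 - (k : ℝ) ^ 3)) <
      ∑ n ∈ Finset.Ico (k ^ 3) ((k + 1) ^ 3), (∫ x, Wt (kap n) (infDist (φ x) A) ∂m) := by
    refine Finset.sum_lt_sum_of_nonempty (Finset.nonempty_Ico.2 hlt) ?_
    intro n hn
    rw [Finset.mem_Ico] at hn
    exact hcon n hn.1 hn.2
  rw [Finset.sum_const, Nat.card_Ico, nsmul_eq_mul, Nat.cast_sub hlt.le] at h2
  push_cast at h2
  rw [mul_div_cancel₀ _ hcard.ne'] at h2
  linarith

/-! ### Numerics -/

lemma hh_pos (k : ℕ) : 0 < hh k := by unfold hh; positivity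

lemma hh_kap (k : ℕ) : hh k = kap (8 * k ^ 3) := rfl

lemma kap_anti {a b : ℕ} (h : a ≤ b) : kap b ≤ kap a := by
  unfold kap
  exact pow_le_pow_of_le_one (by norm_num) (by norm_num) h

lemma num1 {k n : ℕ} (hk : 4 ≤ k) (hn : n < (k + 1) ^ 3) : 17 * hh k < 3 / 4 * kap n := by
  have h1 : n + 6 ≤ 8 * k ^ 3 := by
    have : (k + 1) ^ 3 + 5 ≤ 8 * k ^ 3 := by nlinarith [Nat.pow_le_pow_left hk 3, Nat.pow_le_pow_left hk 2]
    omega
  have h2 : hh k ≤ kap (n + 6) := by rw [hh_kap]; exact kap_anti h1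
  have h3 : kap (n + 6) = kap n / 64 := by unfold kap; rw [pow_add]; norm_num; ring
  have h4 := kap_pos n
  rw [h3] at h2
  linarith

lemma num2 {k k' n : ℕ} (hk : 4 ≤ k) (hk' : k' < k) (hn : n < (k' + 1) ^ 3) :
    hh k ≤ kap n / 4 := by
  have h0 : (k' + 1) ^ 3 ≤ k ^ 3 := Nat.pow_le_pow_left hk' 3
  have h1 : n + 2 ≤ 8 * k ^ 3 := by
    have : 1 ≤ k ^ 3 := Nat.one_le_pow _ _ (by omega)
    omega
  have h2 : hh k ≤ kap (n + 2) := by rw [hh_kap]; exact kap_anti h1
  have h3 : kap (n + 2) = kap n / 4 := by unfold kap; rw [pow_add]; norm_num; ring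
  rwa [h3] at h2

lemma le_cube {a b : ℕ} (h : a ≤ b) : a ≤ b ^ 3 := by
  rcases Nat.eq_zero_or_pos b with rfl | hb
  · omega
  · calc a ≤ b := h
      _ = b ^ 1 := (pow_one b).symm
      _ ≤ b ^ 3 := Nat.pow_le_pow_right hb (by norm_num)

lemma num3 {k₀ k n : ℕ} (hk : k₀ ≤ k) (hn : k ^ 3 ≤ n) : kap n ≤ kap k₀ :=
  kap_anti ((le_cube hk).trans hn)

lemma num4 {k₀ k : ℕ} (hk : k₀ ≤ k) : hh k ≤ kap k₀ := by
  rw [hh_kap]
  exact kap_anti ((le_cube hk).trans (by omega))

/-- `17 hh k ≤ R` for large levels -/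
lemma num5 {k₀ k : ℕ} {R : ℝ} (h4 : 4 ≤ k₀) (hk : k₀ ≤ k) (hR : kap k₀ ≤ R / 4) :
    17 * hh k < R := by
  have h1 := num1 (k := k) (n := k ^ 3) (h4.trans hk)
    (Nat.pow_lt_pow_left (Nat.lt_succ_self k) (by norm_num))
  have h2 := num3 hk (le_refl (k ^ 3))
  have h3 := kap_pos k₀
  linarith

lemma tt_mono {a b : ℕ} (h : a ≤ b) : tt a ≤ tt b := by
  unfold tt
  exact pow_le_pow_right₀ (by norm_num) (Nat.mul_le_mul_left _ (Nat.pow_le_pow_left h 3))

lemma exists_tt_ge (M : ℝ) : ∃ K, M ≤ tt K := by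
  obtain ⟨n, hn⟩ := pow_unbounded_of_one_lt M (one_lt_two)
  refine ⟨n, hn.le.trans ?_⟩
  unfold tt
  exact pow_le_pow_right₀ (by norm_num) (by have := le_cube (le_refl n); omega)

/-! ### Following a chain -/

/-- follow a chain until it leaves the ball of radius `R` or meets a bad point -/
lemma run (p : ℂ → ℂ) (lam : ℂ) (R : ℝ) (k N : ℕ) (y : ℕ → ℂ)
    (hy : ∀ i ≤ N, tt k < ‖p (y i)‖) (hstep : ∀ i < N, ‖y (i + 1) - y i‖ < hh k)
    (hend : R ≤ ‖y N - lam‖) : ∀ (d i : ℕ), i + d = N →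
    ∃ rest : List ℂ, (∀ a ∈ rest, Good p k a) ∧
      List.IsChain (fun a b : ℂ => ‖a - b‖ < hh k) (y i :: rest) ∧
      (∀ a ∈ rest, ‖a - lam‖ < R + hh k) ∧ (∀ a ∈ rest, ∃ j, i < j ∧ j ≤ N ∧ a = y j) ∧
      ((∃ b ∈ y i :: rest, R ≤ ‖b - lam‖) ∨
        ((∀ b ∈ y i :: rest, ‖b - lam‖ < R) ∧
          ∃ x, tt (k + 1) < ‖p x‖ ∧ ∃ a ∈ y i :: rest, ‖x - a‖ ≤ 17 * hh k)) := by
  intro d
  induction d with
  | zero =>
    intro i hi
    simp only [add_zero] at hi
    subst hi
    exact ⟨[], by simp, by simp, by simp, by simp, Or.inl ⟨y i, by simp, hend⟩⟩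
  | succ d ih =>
    intro i hi
    by_cases hR : R ≤ ‖y i - lam‖
    · exact ⟨[], by simp, by simp, by simp, by simp, Or.inl ⟨y i, by simp, hR⟩⟩
    push Not at hR
    have hiN : i < N := by omega
    have hs := hstep i hiN
    by_cases hg : Good p k (y (i + 1))
    · obtain ⟨rest, h1, h2, h3, h4, h5⟩ := ih (i + 1) (by omega)
      have hnext : ‖y (i + 1) - lam‖ < R + hh k := by
        calc ‖y (i + 1) - lam‖ = ‖(y (i + 1) - y i) + (y i - lam)‖ := by congr 1; ring
          _ ≤ ‖y (i + 1) - y i‖ + ‖y i - lam‖ := norm_add_le _ _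
          _ < R + hh k := by linarith
      refine ⟨y (i + 1) :: rest, ?_, ?_, ?_, ?_, ?_⟩
      · intro a ha
        rcases List.mem_cons.1 ha with rfl | ha
        · exact hg
        · exact h1 a ha
      · rw [List.isChain_cons_cons]
        exact ⟨by rw [norm_sub_rev]; exact hs, h2⟩
      · intro a ha
        rcases List.mem_cons.1 ha with rfl | ha
        · exact hnext
        · exact h3 a ha
      · intro a ha
        rcases List.mem_cons.1 ha with rfl | ha
        · exact ⟨i + 1, by omega, by omega, rfl⟩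
        · obtain ⟨j, hj1, hj2, hj3⟩ := h4 a ha
          exact ⟨j, by omega, hj2, hj3⟩
      · rcases h5 with ⟨b, hb, hbR⟩ | ⟨h6, x, hx, a, ha, hxa⟩
        · exact Or.inl ⟨b, List.mem_cons_of_mem _ hb, hbR⟩
        · refine Or.inr ⟨?_, x, hx, a, List.mem_cons_of_mem _ ha, hxa⟩
          intro b hb
          rcases List.mem_cons.1 hb with rfl | hb
          · exact hR
          · exact h6 b hb
    · -- bad point
      have hbad : ∃ z ∈ closedBall (y (i + 1)) (16 * hh k), tt (k + 1) < ‖p z‖ := by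
        by_contra hcon
        push Not at hcon
        exact hg ⟨hy (i + 1) (by omega), hcon⟩
      obtain ⟨z, hz, hpz⟩ := hbad
      refine ⟨[], by simp, by simp, by simp, by simp, Or.inr ⟨?_, z, hpz, y i, by simp, ?_⟩⟩
      · intro b hb
        simp only [List.mem_singleton] at hb
        subst hb
        exact hR
      · rw [mem_closedBall, dist_eq_norm] at hz
        calc ‖z - y i‖ = ‖(z - y (i + 1)) + (y (i + 1) - y i)‖ := by congr 1; ring
          _ ≤ ‖z - y (i + 1)‖ + ‖y (i + 1) - y i‖ := norm_add_le _ _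
          _ ≤ 17 * hh k := by linarith

/-! ### Branches -/

section
variable {X : Type*} [MeasurableSpace X] {m : Measure X} {φ : X → ℂ} {p : ℂ → ℂ}
  {lam : ℂ} {R : ℝ} {z₀ : ℂ} {k₀ : ℕ}

lemma Branch.stageOK : ∀ {L : List Stage}, Branch m φ p lam R z₀ k₀ L → ∀ s ∈ L,
    StageOK m φ p lam R s
  | [], h => absurd h (by simp [Branch])
  | [s], h => by
    intro s' hs'
    simp only [List.mem_singleton] at hs'
    subst hs'
    exact h.1
  | s :: s' :: L, h => by
    intro t ht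
    rcases List.mem_cons.1 ht with rfl | ht
    · exact h.1
    · exact Branch.stageOK h.2.2.2.2 t ht

lemma Branch.k₀_le : ∀ {L : List Stage}, Branch m φ p lam R z₀ k₀ L → ∀ s ∈ L, k₀ ≤ s.k
  | [], h => absurd h (by simp [Branch])
  | [s], h => by
    intro s' hs'
    simp only [List.mem_singleton] at hs'
    subst hs'
    exact h.2.1.ge
  | s :: s' :: L, h => by
    have ih := Branch.k₀_le h.2.2.2.2
    intro t ht
    rcases List.mem_cons.1 ht with rfl | ht
    · exact (ih s' (by simp)).trans h.2.1.le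
    · exact ih t ht

lemma Branch.le_k : ∀ {L : List Stage} {s : Stage}, Branch m φ p lam R z₀ k₀ (s :: L) →
    ∀ t ∈ s :: L, t.k ≤ s.k
  | [], s, _ => by
    intro t ht
    simp only [List.mem_singleton] at ht
    subst ht
    exact le_rfl
  | s' :: L, s, h => by
    have ih := Branch.le_k h.2.2.2.2
    intro t ht
    rcases List.mem_cons.1 ht with rfl | ht
    · exact le_rfl
    · exact (ih t ht).trans h.2.1.le

/-- sub-branch starting at a given stage -/
lemma Branch.tail : ∀ {L : List Stage}, Branch m φ p lam R z₀ k₀ L → ∀ t ∈ L,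
    ∃ L', Branch m φ p lam R z₀ k₀ (t :: L') ∧ ∀ r ∈ t :: L', r ∈ L
  | [], h => absurd h (by simp [Branch])
  | [s], h => by
    intro t ht
    simp only [List.mem_singleton] at ht
    subst ht
    exact ⟨[], h, fun r hr => hr⟩
  | s :: s' :: L, h => by
    intro t ht
    rcases List.mem_cons.1 ht with rfl | ht
    · exact ⟨s' :: L, h, fun r hr => hr⟩
    · obtain ⟨L', h1, h2⟩ := Branch.tail h.2.2.2.2 t ht
      exact ⟨L', h1, fun r hr => List.mem_cons_of_mem _ (h2 r hr)⟩

end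

/-- **Module F** -/
theorem F_of_C2 (hC2 : C2_Stmt) : F_Stmt := by
  intro X _ m φ hm hφ p hp lam z₀ R k₀ hR hk₀ hkap hz₀ htt
  have := hm
  -- a bound for the levels
  obtain ⟨M, hM⟩ : ∃ M : ℝ, ∀ z ∈ closedBall lam (2 * R), ‖p z‖ ≤ M := by
    obtain ⟨C, hC⟩ := (isCompact_closedBall lam (2 * R)).exists_bound_of_continuousOn
      hp.continuous.continuousOn
    exact ⟨C, hC⟩
  obtain ⟨K, hK⟩ := exists_tt_ge M
  -- stages from runs
  have mkStage : ∀ (k : ℕ), k₀ ≤ k → ∀ (f : ℂ) (rest : List ℂ),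
      (∀ a ∈ rest, Good p k a) →
      List.IsChain (fun a b : ℂ => ‖a - b‖ < hh k) (f :: rest) → ‖f - lam‖ ≤ 2 * R →
      (∀ a ∈ rest, ‖a - lam‖ < R + hh k) → ∃ n, StageOK m φ p lam R ⟨k, f, rest, n⟩ := by
    intro k hk f rest h1 h2 h3 h4
    obtain ⟨n, hn1, hn2, hn3⟩ := exists_n m φ hφ {a | a ∈ f :: rest} k
    refine ⟨n, ⟨h1, h2, hn1, hn2, ?_, hn3⟩⟩
    intro a ha
    rcases List.mem_cons.1 ha with rfl | ha
    · exact h3
    · have h5 := h4 a ha
      have h6 := num5 hk₀ hk hkap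
      have h7 := hh_pos k
      linarith
  have claim : ∀ (d : ℕ) (s : Stage) (L : List Stage), Branch m φ p lam R z₀ k₀ (s :: L) →
      K ≤ s.k + 1 + d → (∀ s' ∈ s :: L, ∀ a ∈ s'.pts, ‖a - lam‖ < R) →
      (∃ x, tt (s.k + 1) < ‖p x‖ ∧ ∃ a ∈ s.pts, ‖x - a‖ ≤ 17 * hh s.k) →
      ∃ (s : Stage) (L : List Stage), Branch m φ p lam R z₀ k₀ (s :: L) ∧
        ∃ b ∈ s.pts, R ≤ ‖b - lam‖ := by
    intro d
    induction d with
    | zero =>
      intro s L hB hKd hlt ⟨x, hx, a, ha, hxa⟩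
      exfalso
      have hk := Branch.k₀_le hB s (by simp)
      have h1 := num5 hk₀ hk hkap
      have h2 : ‖x - lam‖ ≤ 2 * R := by
        calc ‖x - lam‖ = ‖(x - a) + (a - lam)‖ := by congr 1; ring
          _ ≤ ‖x - a‖ + ‖a - lam‖ := norm_add_le _ _
          _ ≤ 2 * R := by
            have := hlt s (by simp) a ha
            linarith
      have h3 := hM x (by rw [mem_closedBall, dist_eq_norm]; exact h2)
      have h4 := tt_mono (by simpa using hKd : K ≤ s.k + 1)
      linarith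
    | succ d ih =>
      intro s L hB hKd hlt ⟨x, hx, a, ha, hxa⟩
      set k := s.k + 1 with hk
      have hks := Branch.k₀_le hB s (by simp)
      have hkk₀ : k₀ ≤ k := by omega
      obtain ⟨N, y, hy0, hy1, hy2, hy3⟩ := hC2 p hp x (tt k) hx (hh k) (hh_pos k) (‖lam‖ + 3 * R)
      have hyN : 3 * R ≤ ‖y N - lam‖ := by
        have := norm_sub_norm_le (y N) lam
        linarith
      have hOK : ∀ t ∈ s :: L, StageOK m φ p lam R t := Branch.stageOK hB
      have hkp : ∀ t ∈ s :: L, t.kp ≤ R / 4 := by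
        intro t ht
        exact (num3 (Branch.k₀_le hB t ht) (hOK t ht).rng1).trans hkap
      classical
      let near : ℕ → Prop := fun i => ∃ t ∈ s :: L, ∃ b ∈ t.pts, ‖y i - b‖ < 3 / 4 * t.kp
      have hnear0 : near 0 := by
        refine ⟨s, by simp, a, ha, ?_⟩
        rw [hy0]
        exact lt_of_le_of_lt hxa (num1 (hk₀.trans hks) (hOK s (by simp)).rng2)
      have hnearN : ¬ near N := by
        rintro ⟨t, ht, b, hb, hlt'⟩
        have h1 := hlt t ht b hb
        have h2 := hkp t ht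
        have h3 : ‖y N - lam‖ ≤ ‖y N - b‖ + ‖b - lam‖ := by
          calc ‖y N - lam‖ = ‖(y N - b) + (b - lam)‖ := by congr 1; ring
            _ ≤ _ := norm_add_le _ _
        linarith
      set i := Nat.findGreatest near N with hi
      have hnear : near i := Nat.findGreatest_spec (m := 0) (Nat.zero_le N) hnear0
      have hiN : i < N := by
        refine lt_of_le_of_ne (Nat.findGreatest_le N) ?_
        intro h
        rw [h] at hnear
        exact hnearN hnear
      have hfar : ∀ j, i < j → j ≤ N → ¬ near j := fun j h1 h2 =>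
        Nat.findGreatest_is_greatest h1 h2
      obtain ⟨t, ht, b, hb, htb⟩ := hnear
      obtain ⟨L', hB', hsub⟩ := Branch.tail hB t ht
      obtain ⟨rest, r1, r2, r3, r4, r5⟩ := run p lam R k N y hy1 hy2 (by linarith)
        (N - (i + 1)) (i + 1) (by omega)
      have htk : t.k < k := lt_of_le_of_lt (Branch.le_k hB t ht) (Nat.lt_succ_self _)
      have hhk : hh k ≤ t.kp / 4 := num2 (hk₀.trans hkk₀) htk (hOK t ht).rng2
      have hfb : ‖y (i + 1) - b‖ ≤ t.kp := by
        calc ‖y (i + 1) - b‖ = ‖(y (i + 1) - y i) + (y i - b)‖ := by congr 1; ring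
          _ ≤ ‖y (i + 1) - y i‖ + ‖y i - b‖ := norm_add_le _ _
          _ ≤ t.kp := by
            have := hy2 i hiN
            linarith
      have hf2R : ‖y (i + 1) - lam‖ ≤ 2 * R := by
        have h1 := hlt t ht b hb
        have h2 := hkp t ht
        calc ‖y (i + 1) - lam‖ = ‖(y (i + 1) - b) + (b - lam)‖ := by congr 1; ring
          _ ≤ ‖y (i + 1) - b‖ + ‖b - lam‖ := norm_add_le _ _
          _ ≤ 2 * R := by linarith
      obtain ⟨n, hS⟩ := mkStage k hkk₀ (y (i + 1)) rest r1 r2 hf2R r3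
      have hptsj : ∀ c ∈ y (i + 1) :: rest, ∃ j, i < j ∧ j ≤ N ∧ c = y j := by
        intro c hc
        rcases List.mem_cons.1 hc with rfl | hc
        · exact ⟨i + 1, by omega, by omega, rfl⟩
        · obtain ⟨j, h1, h2, h3⟩ := r4 c hc
          exact ⟨j, by omega, h2, h3⟩
      have hBnew : Branch m φ p lam R z₀ k₀ (⟨k, y (i + 1), rest, n⟩ :: t :: L') := by
        refine ⟨hS, htk, ⟨b, hb, hfb⟩, ?_, hB'⟩
        intro s'' hs'' c hc e he
        obtain ⟨j, hj1, hj2, rfl⟩ := hptsj c hc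
        have := hfar j hj1 hj2
        by_contra hcon
        push Not at hcon
        exact this ⟨s'', hsub s'' hs'', e, he, hcon⟩
      rcases r5 with ⟨c, hc, hcR⟩ | ⟨h6, x', hx', a', ha', hxa'⟩
      · exact ⟨_, _, hBnew, c, hc, hcR⟩
      · refine ih _ _ hBnew (by simp only; omega) ?_ ⟨x', hx', a', ha', hxa'⟩
        intro s' hs' c hc
        rcases List.mem_cons.1 hs' with rfl | hs'
        · exact h6 c hc
        · exact hlt s' (hsub s' hs') c hc
  -- the first stage
  obtain ⟨N, y, hy0, hy1, hy2, hy3⟩ := hC2 p hp z₀ (tt k₀) htt (hh k₀) (hh_pos k₀) (‖lam‖ + 3 * R)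
  have hyN : 3 * R ≤ ‖y N - lam‖ := by
    have := norm_sub_norm_le (y N) lam
    linarith
  obtain ⟨rest, r1, r2, r3, r4, r5⟩ := run p lam R k₀ N y hy1 hy2 (by linarith) N 0 (by omega)
  rw [hy0] at r2 r5
  obtain ⟨n, hS⟩ := mkStage k₀ le_rfl z₀ rest r1 r2 (by linarith) r3
  have hB0 : Branch m φ p lam R z₀ k₀ [⟨k₀, z₀, rest, n⟩] := ⟨hS, rfl, rfl⟩
  rcases r5 with ⟨c, hc, hcR⟩ | ⟨h6, x', hx', a', ha', hxa'⟩
  · exact ⟨_, _, hB0, c, hc, hcR⟩
  · refine claim K _ _ hB0 (by simp only; omega) ?_ ⟨x', hx', a', ha', hxa'⟩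
    intro s' hs' c hc
    simp only [List.mem_singleton] at hs'
    subst hs'
    exact h6 c hc

end Fmod

end Pool.Agent.RankOne
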