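import Pool.Agent.Lib_helper15.RankOne.DefsT2

/-!
# Rank one perturbations: module P (total cost of the net discs of a stage)
-/

set_option autoImplicit false

open MeasureTheory Metric Set

namespace Pool.Agent.RankOne

namespace Pmod

/-- the kernel `w_a` -/
noncomputable def wk (h : ℝ) (a w : ℂ) : ℝ := 32 * h / max (32 * h) ‖w - a‖

theorem wk_nonneg {h : ℝ} (hh0 : 0 < h) (a w : ℂ) : 0 ≤ wk h a w := by
  unfold wk; positivity

theorem wk_le_one {h : ℝ} (hh0 : 0 < h) (a w : ℂ) : wk h a w ≤ 1 := by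
  unfold wk
  rw [div_le_one (by positivity)]
  exact le_max_left _ _

theorem wk_le_div {h : ℝ} (hh0 : 0 < h) (a w : ℂ) {s : ℝ} (hs : 0 < s) (hw : s ≤ ‖w - a‖) :
    wk h a w ≤ 32 * h / s := by
  unfold wk
  apply div_le_div_of_nonneg_left (by positivity) hs
  exact hw.trans (le_max_right _ _)

theorem wk_mul_le {h : ℝ} (hh0 : 0 < h) (a w : ℂ) : ‖w - a‖ * wk h a w ≤ 32 * h := by
  unfold wk
  rw [mul_div_assoc', div_le_iff₀ (by positivity), mul_comm]
  have : 0 < 32 * h := by positivity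
  exact mul_le_mul_of_nonneg_left (le_max_right _ _) this.le

theorem measurable_wk (h : ℝ) (a : ℂ) : Measurable (wk h a) := by
  unfold wk; fun_prop

/-- basic comparisons of `h` and `κ` -/
theorem hh_le_kp {X : Type*} [MeasurableSpace X] {m : Measure X} {φ : X → ℂ} {p : ℂ → ℂ}
    {lam : ℂ} {R : ℝ} {s : Stage} (hs : StageOK m φ p lam R s) (hk : 40 ≤ s.k) :
    40 * hh s.k ≤ s.kp := by
  have h1 := hh_div_kp_cube hs (by omega)
  have h0 := s.kp_pos
  have h2 : s.kp ≤ 1 := by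
    unfold Stage.kp kap
    exact pow_le_one₀ (by norm_num) (by norm_num)
  rw [div_le_iff₀ (by positivity)] at h1
  have h3 : ff s.k ≤ 1 / 40 := by
    unfold ff
    have hk' : (40 : ℝ) ≤ s.k := by exact_mod_cast hk
    apply one_div_le_one_div_of_le (by norm_num)
    nlinarith
  have h4 : s.kp ^ 3 ≤ s.kp := by
    have := pow_le_of_le_one h0.le h2 (n := 3) (by norm_num)
    exact this
  have h5 : ff s.k * s.kp ^ 3 ≤ 1 / 40 * s.kp := by
    have := ff_nonneg s.k
    exact mul_le_mul h3 h4 (by positivity) (by norm_num)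
  linarith

/-- pointwise bound -/
theorem pointwise {X : Type*} [MeasurableSpace X] {m : Measure X} {φ : X → ℂ} {p : ℂ → ℂ}
    {lam : ℂ} {r R : ℝ} {s : Stage} (hR : 0 < R) (hRr : R ≤ r / 64) (hr : r ≤ 1)
    (hs : StageOK m φ p lam R s) (hk : 40 ≤ s.k) (hkR : s.kp ≤ R / 4)
    (N : Finset ℂ) (hN : ∀ a ∈ N, a ∈ s.rest) {Cp : ℝ} (hCp : 0 < Cp)
    (hsum : ∀ w : ℂ, ∑ a ∈ N, (wk (hh s.k) a w) ^ 3 ≤ Cp)
    (hcard : (N.card : ℝ) * hh s.k ^ 2 ≤ 36 * R ^ 2)
    {q : ℂ → ℂ} {Q Lq : ℝ} (hq : QB q lam r Q Lq) (w : ℂ) :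
    ∑ a ∈ N, (‖q a‖ + 4 * hh s.k * Lq) * (wk (hh s.k) a w) ^ 3 ≤
      Cp * (nearF s w * ‖q w‖) + (5 * Cp + 18432) * (Q + Lq) * ff s.k := by
  have h0 := hh_pos s.k
  have hκ0 := s.kp_pos
  have hhk := hh_le_kp hs hk
  have hff := ff_nonneg s.k
  have hL0 := hq.L0
  have hQ0 := hq.Q0
  have hdiv := hh_div_kp_cube hs (by omega)
  have hkff := kp_le_ff hs (by omega)
  have hhff := hh_le_ff (k := s.k) (by omega)
  have hκ1 : s.kp ≤ 1 := by
    unfold Stage.kp kap
    exact pow_le_one₀ (by norm_num) (by norm_num)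
  have hR64 : R ≤ 1 / 64 := by linarith
  have hdiv2 : hh s.k / s.kp ^ 2 ≤ ff s.k := by
    refine le_trans ?_ hdiv
    apply div_le_div_of_nonneg_left h0.le (by positivity)
    exact pow_le_pow_of_le_one hκ0.le hκ1 (by norm_num)
  have hpN : ∀ a ∈ N, a ∈ s.pts := fun a ha => List.mem_cons_of_mem _ (hN a ha)
  have hRsq : R ^ 2 ≤ 1 / 4096 := by
    have := pow_le_pow_left₀ hR.le hR64 2
    norm_num at this ⊢
    exact this
  have hin : ∀ a ∈ N, a ∈ closedBall lam r := by
    intro a ha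
    rw [mem_closedBall_iff_norm]
    have := hs.inball a (hpN a ha)
    linarith
  unfold nearF
  split_ifs with hnear
  · -- near
    have hne : ({a | a ∈ s.pts} : Set ℂ).Nonempty := ⟨s.first, by simp [Stage.pts]⟩
    obtain ⟨b, hb, hbw⟩ := (infDist_lt_iff hne).1 hnear
    have hb' := hs.inball b hb
    have hwin : w ∈ closedBall lam r := by
      rw [mem_closedBall_iff_norm]
      have : ‖w - lam‖ ≤ ‖w - b‖ + ‖b - lam‖ := by
        have := norm_sub_le_norm_sub_add_norm_sub w b lam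
        exact this
      rw [dist_eq_norm] at hbw
      linarith
    have hterm : ∀ a ∈ N, (‖q a‖ + 4 * hh s.k * Lq) * (wk (hh s.k) a w) ^ 3 ≤
        (‖q w‖ + 4 * hh s.k * Lq + Lq * s.kp) * (wk (hh s.k) a w) ^ 3 +
          Lq * (32 ^ 3 * hh s.k ^ 3 / s.kp ^ 2) := by
      intro a ha
      have h1 : ‖q a‖ ≤ ‖q w‖ + Lq * ‖w - a‖ := by
        have := hq.lip w hwin a (hin a ha)
        have h2 : ‖q a‖ ≤ ‖q w‖ + ‖q w - q a‖ := by
          have := norm_sub_le (q w) (q w - q a)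
          simpa using this
        linarith
      have hw0 := wk_nonneg h0 a w
      have h2 : (‖q a‖ + 4 * hh s.k * Lq) * (wk (hh s.k) a w) ^ 3 ≤
          (‖q w‖ + Lq * ‖w - a‖ + 4 * hh s.k * Lq) * (wk (hh s.k) a w) ^ 3 := by
        apply mul_le_mul_of_nonneg_right _ (by positivity)
        linarith
      have h3 : ‖w - a‖ * (wk (hh s.k) a w) ^ 3 ≤
          s.kp * (wk (hh s.k) a w) ^ 3 + 32 ^ 3 * hh s.k ^ 3 / s.kp ^ 2 := by
        rcases le_total ‖w - a‖ s.kp with hc | hc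
        · have : ‖w - a‖ * (wk (hh s.k) a w) ^ 3 ≤ s.kp * (wk (hh s.k) a w) ^ 3 :=
            mul_le_mul_of_nonneg_right hc (by positivity)
          have : 0 ≤ 32 ^ 3 * hh s.k ^ 3 / s.kp ^ 2 := by positivity
          linarith
        · have e1 := wk_mul_le h0 a w
          have e2 := wk_le_div h0 a w hκ0 hc
          have e3 : (wk (hh s.k) a w) ^ 2 ≤ (32 * hh s.k / s.kp) ^ 2 :=
            pow_le_pow_left₀ hw0 e2 2
          have e4 : ‖w - a‖ * (wk (hh s.k) a w) ^ 3 ≤ 32 * hh s.k * (32 * hh s.k / s.kp) ^ 2 := by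
            have : ‖w - a‖ * (wk (hh s.k) a w) ^ 3 =
                (‖w - a‖ * wk (hh s.k) a w) * (wk (hh s.k) a w) ^ 2 := by ring
            rw [this]
            exact mul_le_mul e1 e3 (by positivity) (by positivity)
          have e5 : 32 * hh s.k * (32 * hh s.k / s.kp) ^ 2 = 32 ^ 3 * hh s.k ^ 3 / s.kp ^ 2 := by
            rw [div_pow]; ring
          have : 0 ≤ s.kp * (wk (hh s.k) a w) ^ 3 := by positivity
          linarith
      have h4 := mul_le_mul_of_nonneg_left h3 hL0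
      nlinarith
    have hS := Finset.sum_le_sum hterm
    rw [Finset.sum_add_distrib, ← Finset.mul_sum, Finset.sum_const, nsmul_eq_mul] at hS
    have h5 : (‖q w‖ + 4 * hh s.k * Lq + Lq * s.kp) * ∑ a ∈ N, (wk (hh s.k) a w) ^ 3 ≤
        (‖q w‖ + 4 * hh s.k * Lq + Lq * s.kp) * Cp :=
      mul_le_mul_of_nonneg_left (hsum w) (by positivity)
    have h6 : (N.card : ℝ) * (Lq * (32 ^ 3 * hh s.k ^ 3 / s.kp ^ 2)) ≤ 288 * Lq * ff s.k := by
      have e1 : (N.card : ℝ) * (Lq * (32 ^ 3 * hh s.k ^ 3 / s.kp ^ 2)) =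
          ((N.card : ℝ) * hh s.k ^ 2) * (Lq * 32 ^ 3 * (hh s.k / s.kp ^ 2)) := by ring
      rw [e1]
      have e2 : ((N.card : ℝ) * hh s.k ^ 2) * (Lq * 32 ^ 3 * (hh s.k / s.kp ^ 2)) ≤
          (36 * (1 / 4096)) * (Lq * 32 ^ 3 * ff s.k) := by
        apply mul_le_mul (hcard.trans (by linarith)) _ (by positivity) (by positivity)
        apply mul_le_mul_of_nonneg_left hdiv2 (by positivity)
      calc _ ≤ _ := e2
        _ = 288 * Lq * ff s.k := by ring
    have h7 : 4 * hh s.k * Lq * Cp ≤ 4 * ff s.k * Lq * Cp := by gcongr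
    have h8 : Lq * s.kp * Cp ≤ Lq * ff s.k * Cp := by gcongr
    have h9 : 0 ≤ Cp * Q * ff s.k := by positivity
    have h10 : 0 ≤ Q * ff s.k := by positivity
    have h11 : 0 ≤ Lq * ff s.k := by positivity
    nlinarith
  · -- far
    rw [not_lt] at hnear
    have hterm : ∀ a ∈ N, (‖q a‖ + 4 * hh s.k * Lq) * (wk (hh s.k) a w) ^ 3 ≤
        (Q + Lq) * (128 * hh s.k / s.kp) ^ 3 := by
      intro a ha
      have hw0 := wk_nonneg h0 a w
      have h1 : s.kp / 4 ≤ ‖w - a‖ := by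
        rw [← dist_eq_norm]
        exact hnear.trans (infDist_le_dist_of_mem (hpN a ha))
      have h2 : wk (hh s.k) a w ≤ 128 * hh s.k / s.kp := by
        have := wk_le_div h0 a w (by positivity) h1
        calc _ ≤ _ := this
          _ = 128 * hh s.k / s.kp := by field_simp; norm_num
      have h3 : ‖q a‖ ≤ Q := hq.bd a (hin a ha)
      have h4 : 4 * hh s.k * Lq ≤ Lq := by
        have : 4 * hh s.k ≤ 1 := by linarith
        nlinarith
      exact mul_le_mul (by linarith) (pow_le_pow_left₀ hw0 h2 3) (by positivity) (by positivity)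
    have hS := Finset.sum_le_sum hterm
    rw [Finset.sum_const, nsmul_eq_mul] at hS
    have h6 : (N.card : ℝ) * ((Q + Lq) * (128 * hh s.k / s.kp) ^ 3) ≤
        18432 * (Q + Lq) * ff s.k := by
      have e1 : (N.card : ℝ) * ((Q + Lq) * (128 * hh s.k / s.kp) ^ 3) =
          ((N.card : ℝ) * hh s.k ^ 2) * ((Q + Lq) * 128 ^ 3 * (hh s.k / s.kp ^ 3)) := by
        rw [div_pow]; ring
      rw [e1]
      have e2 : ((N.card : ℝ) * hh s.k ^ 2) * ((Q + Lq) * 128 ^ 3 * (hh s.k / s.kp ^ 3)) ≤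
          (36 * (1 / 4096)) * ((Q + Lq) * 128 ^ 3 * ff s.k) := by
        apply mul_le_mul (hcard.trans (by linarith)) _ (by positivity) (by positivity)
        apply mul_le_mul_of_nonneg_left hdiv (by positivity)
      calc _ ≤ _ := e2
        _ = 18432 * (Q + Lq) * ff s.k := by ring
    have h9 : 0 ≤ 5 * Cp * (Q + Lq) * ff s.k := by positivity
    nlinarith

theorem cost_le.{u} {X : Type u} [MeasurableSpace X] {m : Measure X} {c φ : X → ℂ}
    (hA2 : A2_Stmt.{u}) (hC1 : C1_Stmt) (hE : E_Stmt.{u}) (hd : Data m c φ)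
    {p : ℂ → ℂ} (hp : Differentiable ℂ p)
    {lam : ℂ} {r R : ℝ} {s : Stage} (hR : 0 < R) (hRr : R ≤ r / 64)
    (hint : (∫ z in closedBall lam r, ‖p z * FF m c φ z‖) ≤ 1)
    (hs : StageOK m φ p lam R s) (hk : 40 ≤ s.k) (hkR : s.kp ≤ R / 4)
    {q : ℂ → ℂ} {Q Lq : ℝ} (hq : QB q lam r Q Lq) {a : ℂ} (ha : a ∈ s.rest) :
    cost m c φ q (a, 2 * hh s.k) ≤ (‖q a‖ + 4 * hh s.k * Lq) *
      (1 / (2 ^ (32 * s.k ^ 3) * hh s.k) + 320 * Real.pi * ∫ x, (wk (hh s.k) a (φ x)) ^ 3 ∂m) := by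
  have h0 := hh_pos s.k
  have hκ0 := s.kp_pos
  have hhk := hh_le_kp hs hk
  have hL0 := hq.L0
  have hr : 0 < r := by linarith
  have hal := hs.inball a (List.mem_cons_of_mem _ ha)
  have hgood := hs.good a ha
  have hsub : closedBall a (16 * hh s.k) ⊆ closedBall lam r := by
    intro z hz
    rw [mem_closedBall_iff_norm] at hz ⊢
    have := norm_sub_le_norm_sub_add_norm_sub z a lam
    linarith
  -- area
  have hτ : (0 : ℝ) < 2 ^ (32 * s.k ^ 3) := by positivity
  have hk0 : 0 < s.k ^ 3 := by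
    have : 0 < s.k := by omega
    positivity
  have hτt : (2 : ℝ) ^ (32 * s.k ^ 3) < tt s.k := by
    unfold tt
    apply pow_lt_pow_right₀ (by norm_num)
    omega
  have htt : tt s.k ≤ tt (s.k + 1) := by
    unfold tt
    apply pow_le_pow_right₀ (by norm_num)
    have : s.k ^ 3 ≤ (s.k + 1) ^ 3 := Nat.pow_le_pow_left (by omega) 3
    omega
  have harea := hC1 p hp a (16 * hh s.k) (tt s.k) (2 ^ (32 * s.k ^ 3)) (tt (s.k + 1)) (1 / 6)
    (by positivity) hτ hτt hgood.1.le hgood.2 (hτt.trans_le htt) (log_level hk)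
  -- `E`
  have hFF := (hA2 _ m c φ hd).2
  have hintg : IntegrableOn (fun z => p z * FF m c φ z) (closedBall lam r) :=
    IntegrableOn.continuousOn_mul hp.continuous.continuousOn (hFF lam r hr).1
      (isCompact_closedBall lam r)
  have hint2 : (∫ z in closedBall a (16 * hh s.k), ‖p z * FF m c φ z‖) ≤ 1 := by
    refine le_trans ?_ hint
    apply setIntegral_mono_set hintg.norm
    · exact Filter.Eventually.of_forall fun z => norm_nonneg _
    · exact hsub.eventuallyLE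
  have hEa := hE _ m c φ hd p hp.continuous a (16 * hh s.k) (2 ^ (32 * s.k ^ 3)) (by positivity)
    hτ harea hint2
  -- the cost
  unfold cost
  simp only
  have hsub2 : closedBall a (2 * (2 * hh s.k)) ⊆ closedBall a (16 * hh s.k) :=
    closedBall_subset_closedBall (by linarith)
  have hI16 := (hFF a (16 * hh s.k) (by positivity)).1
  have hI4 : IntegrableOn (FF m c φ) (closedBall a (2 * (2 * hh s.k))) := hI16.mono_set hsub2
  have h1 : (∫ z in closedBall a (2 * (2 * hh s.k)), ‖FF m c φ z‖ * ‖q z‖) ≤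
      ∫ z in closedBall a (2 * (2 * hh s.k)), ‖FF m c φ z‖ * (‖q a‖ + 4 * hh s.k * Lq) := by
    apply setIntegral_mono_on
    · exact IntegrableOn.mul_continuousOn hI4.norm hq.cont.norm.continuousOn
        (isCompact_closedBall _ _)
    · exact hI4.norm.mul_const _
    · exact measurableSet_closedBall
    · intro z hz
      apply mul_le_mul_of_nonneg_left _ (norm_nonneg _)
      have hzr : z ∈ closedBall lam r := hsub (hsub2 hz)
      have har : a ∈ closedBall lam r := hsub (mem_closedBall_self (by positivity))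
      have h2 := hq.lip z hzr a har
      have h3 : ‖q z‖ ≤ ‖q a‖ + ‖q z - q a‖ := by
        have := norm_add_le (q a) (q z - q a)
        simpa using this
      rw [mem_closedBall_iff_norm] at hz
      have h4 : Lq * ‖z - a‖ ≤ Lq * (2 * (2 * hh s.k)) := mul_le_mul_of_nonneg_left hz hL0
      linarith
  rw [integral_mul_const] at h1
  have h2 : (∫ z in closedBall a (2 * (2 * hh s.k)), ‖FF m c φ z‖) ≤
      ∫ z in closedBall a (16 * hh s.k), ‖FF m c φ z‖ := by
    apply setIntegral_mono_set hI16.norm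
    · exact Filter.Eventually.of_forall fun z => norm_nonneg _
    · exact hsub2.eventuallyLE
  have hS : 0 ≤ ‖q a‖ + 4 * hh s.k * Lq := by positivity
  have h3 : (1 / (2 * hh s.k)) * (∫ z in closedBall a (2 * (2 * hh s.k)), ‖FF m c φ z‖ * ‖q z‖) ≤
      (1 / (2 * hh s.k)) * ((2 / 2 ^ (32 * s.k ^ 3) + 40 * Real.pi * (16 * hh s.k) *
        ∫ x, (2 * (16 * hh s.k) / max (2 * (16 * hh s.k)) ‖φ x - a‖) ^ 3 ∂m) *
          (‖q a‖ + 4 * hh s.k * Lq)) := by
    apply mul_le_mul_of_nonneg_left _ (by positivity)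
    refine h1.trans ?_
    apply mul_le_mul_of_nonneg_right (h2.trans hEa) hS
  refine h3.trans (le_of_eq ?_)
  have h4 : (∫ x, (2 * (16 * hh s.k) / max (2 * (16 * hh s.k)) ‖φ x - a‖) ^ 3 ∂m) =
      ∫ x, (wk (hh s.k) a (φ x)) ^ 3 ∂m := by
    congr 1
    ext x
    unfold wk
    rw [show 2 * (16 * hh s.k) = 32 * hh s.k by ring]
  rw [h4]
  field_simp
  ring

end Pmod

/-- Module P. -/
theorem P.{u} (hA2 : A2_Stmt.{u}) (hC1 : C1_Stmt) (hE : E_Stmt.{u}) (hT2 : T2_Stmt) :
    P_Stmt.{u} := by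
  obtain ⟨Cp, hCp, hT⟩ := hT2
  refine ⟨1 + 320 * Real.pi * (5 * Cp + 18432), by positivity, ?_⟩
  intro X _ m c φ hd p hp lam r R hR hRr hr hint s hs hk hkR N hN hsep q Q Lq hq
  have := hd.fin
  have h0 := hh_pos s.k
  have hκ0 := s.kp_pos
  have hhk := Pmod.hh_le_kp hs hk
  have hff := ff_nonneg s.k
  have hL0 := hq.L0
  have hQ0 := hq.Q0
  have hR64 : R ≤ 1 / 64 := by linarith
  have hRsq : R ^ 2 ≤ 1 / 4096 := by
    have := pow_le_pow_left₀ hR.le hR64 2
    norm_num at this ⊢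
    exact this
  obtain ⟨hT1, hT2⟩ := hT (hh s.k) h0 N hsep
  have hcard : (N.card : ℝ) * hh s.k ^ 2 ≤ 36 * R ^ 2 := by
    have := hT2 lam (2 * R) (by linarith)
      (fun a ha => hs.inball a (List.mem_cons_of_mem _ (hN a ha)))
    linarith
  have hpt := Pmod.pointwise hR hRr hr hs hk hkR N hN hCp (fun w => hT1 w) hcard hq
  have hcost : ∀ a ∈ N, cost m c φ q (a, 2 * hh s.k) ≤ (‖q a‖ + 4 * hh s.k * Lq) *
      (1 / (2 ^ (32 * s.k ^ 3) * hh s.k) +
        320 * Real.pi * ∫ x, (Pmod.wk (hh s.k) a (φ x)) ^ 3 ∂m) :=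
    fun a ha => Pmod.cost_le hA2 hC1 hE hd hp hR hRr hint hs hk hkR hq (hN a ha)
  have hsum := Finset.sum_le_sum hcost
  refine hsum.trans ?_
  have hsplit : ∑ a ∈ N, (‖q a‖ + 4 * hh s.k * Lq) *
      (1 / (2 ^ (32 * s.k ^ 3) * hh s.k) +
        320 * Real.pi * ∫ x, (Pmod.wk (hh s.k) a (φ x)) ^ 3 ∂m) =
      (∑ a ∈ N, (‖q a‖ + 4 * hh s.k * Lq)) * (1 / (2 ^ (32 * s.k ^ 3) * hh s.k)) +
      320 * Real.pi * ∑ a ∈ N, (‖q a‖ + 4 * hh s.k * Lq) *
        ∫ x, (Pmod.wk (hh s.k) a (φ x)) ^ 3 ∂m := by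
    rw [Finset.sum_mul, Finset.mul_sum, ← Finset.sum_add_distrib]
    apply Finset.sum_congr rfl
    intro a _
    ring
  rw [hsplit]
  -- first part
  have hp1 : (∑ a ∈ N, (‖q a‖ + 4 * hh s.k * Lq)) * (1 / (2 ^ (32 * s.k ^ 3) * hh s.k)) ≤
      (Q + Lq) * ff s.k := by
    have e1 : ∑ a ∈ N, (‖q a‖ + 4 * hh s.k * Lq) ≤ ∑ _a ∈ N, (Q + Lq) := by
      apply Finset.sum_le_sum
      intro a ha
      have hin : a ∈ closedBall lam r := by
        rw [mem_closedBall_iff_norm]
        have := hs.inball a (List.mem_cons_of_mem _ (hN a ha))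
        linarith
      have h3 : ‖q a‖ ≤ Q := hq.bd a hin
      have h4 : 4 * hh s.k * Lq ≤ Lq := by
        have : 4 * hh s.k ≤ 1 := by linarith
        nlinarith
      linarith
    rw [Finset.sum_const, nsmul_eq_mul] at e1
    have e2 := mul_le_mul_of_nonneg_right e1
      (show 0 ≤ 1 / ((2 : ℝ) ^ (32 * s.k ^ 3) * hh s.k) by positivity)
    refine e2.trans ?_
    have e3 : (N.card : ℝ) * (Q + Lq) * (1 / (2 ^ (32 * s.k ^ 3) * hh s.k)) =
        ((N.card : ℝ) * hh s.k ^ 2) * ((Q + Lq) * (1 / (2 ^ (32 * s.k ^ 3) * hh s.k ^ 3))) := by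
      field_simp
    rw [e3]
    have e4 := tau_hh_cube (k := s.k) (by omega)
    calc _ ≤ (1 : ℝ) * ((Q + Lq) * ff s.k) := by
          apply mul_le_mul (by linarith) _ (by positivity) (by norm_num)
          exact mul_le_mul_of_nonneg_left e4 (by positivity)
      _ = _ := one_mul _
  -- second part
  have hφm : Measurable φ := hd.phi.1
  obtain ⟨Cφ, hCφ⟩ := hd.phi.2
  have hwint : ∀ a, Integrable (fun x => (Pmod.wk (hh s.k) a (φ x)) ^ 3) m := by
    intro a
    apply Integrable.of_bound (C := 1)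
    · exact (((Pmod.measurable_wk _ a).comp hφm).pow_const 3).aestronglyMeasurable
    · refine Filter.Eventually.of_forall fun x => ?_
      have h1 := Pmod.wk_nonneg h0 a (φ x)
      have h2 := Pmod.wk_le_one h0 a (φ x)
      rw [Real.norm_of_nonneg (by positivity)]
      exact pow_le_one₀ h1 h2
  have hnint : Integrable (fun x => nearF s (φ x) * ‖q (φ x)‖) m := by
    obtain ⟨B, hB⟩ := (isCompact_closedBall (0 : ℂ) Cφ).exists_bound_of_continuousOn
      hq.cont.continuousOn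
    apply Integrable.of_bound (C := B)
    · apply AEStronglyMeasurable.mul
      · apply Measurable.aestronglyMeasurable
        have : Measurable (nearF s) := by
          unfold nearF
          apply Measurable.ite _ measurable_const measurable_const
          exact measurableSet_lt (continuous_infDist_pt _).measurable measurable_const
        exact this.comp hφm
      · exact (hq.cont.norm.measurable.comp hφm).aestronglyMeasurable
    · refine Filter.Eventually.of_forall fun x => ?_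
      have h1 : ‖q (φ x)‖ ≤ B := hB _ (by rw [mem_closedBall_zero_iff]; exact hCφ x)
      have h2 : 0 ≤ nearF s (φ x) := by unfold nearF; split_ifs <;> norm_num
      have h3 : nearF s (φ x) ≤ 1 := by unfold nearF; split_ifs <;> norm_num
      rw [Real.norm_of_nonneg (by positivity)]
      have := norm_nonneg (q (φ x))
      nlinarith
  have hp2 : ∑ a ∈ N, (‖q a‖ + 4 * hh s.k * Lq) * ∫ x, (Pmod.wk (hh s.k) a (φ x)) ^ 3 ∂m ≤
      Cp * (∫ x, nearF s (φ x) * ‖q (φ x)‖ ∂m) +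
        (5 * Cp + 18432) * (Q + Lq) * ff s.k * m.real univ := by
    have e1 : ∑ a ∈ N, (‖q a‖ + 4 * hh s.k * Lq) * ∫ x, (Pmod.wk (hh s.k) a (φ x)) ^ 3 ∂m =
        ∫ x, ∑ a ∈ N, (‖q a‖ + 4 * hh s.k * Lq) * (Pmod.wk (hh s.k) a (φ x)) ^ 3 ∂m := by
      rw [integral_finsetSum _ (fun a _ => (hwint a).const_mul _)]
      apply Finset.sum_congr rfl
      intro a _
      rw [integral_const_mul]
    rw [e1]
    have e2 : (∫ x, ∑ a ∈ N, (‖q a‖ + 4 * hh s.k * Lq) * (Pmod.wk (hh s.k) a (φ x)) ^ 3 ∂m) ≤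
        ∫ x, (Cp * (nearF s (φ x) * ‖q (φ x)‖) + (5 * Cp + 18432) * (Q + Lq) * ff s.k) ∂m := by
      apply integral_mono
      · exact integrable_finsetSum _ (fun a _ => (hwint a).const_mul _)
      · exact (hnint.const_mul _).add (integrable_const _)
      · intro x
        exact hpt (φ x)
    refine e2.trans (le_of_eq ?_)
    rw [integral_add (hnint.const_mul _) (integrable_const _), integral_const_mul, integral_const,
      smul_eq_mul]
    ring
  have hV : 0 ≤ m.real univ := measureReal_nonneg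
  have hpi := Real.pi_pos
  have hp2' := mul_le_mul_of_nonneg_left hp2 (show 0 ≤ 320 * Real.pi by positivity)
  have hI0 : 0 ≤ ∫ x, nearF s (φ x) * ‖q (φ x)‖ ∂m := by
    apply integral_nonneg
    intro x
    have h2 : 0 ≤ nearF s (φ x) := by unfold nearF; split_ifs <;> norm_num
    simp only [Pi.zero_apply]
    positivity
  calc _ ≤ (Q + Lq) * ff s.k + 320 * Real.pi * (Cp * (∫ x, nearF s (φ x) * ‖q (φ x)‖ ∂m) +
        (5 * Cp + 18432) * (Q + Lq) * ff s.k * m.real univ) := add_le_add hp1 hp2'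
    _ ≤ _ := by
      have t1 : 0 ≤ (Q + Lq) * ff s.k * m.real univ := by positivity
      have t2 : 0 ≤ 320 * Real.pi * (5 * Cp + 18432) * (Q + Lq) * ff s.k := by positivity
      have t3 : 320 * Real.pi * Cp * (∫ x, nearF s (φ x) * ‖q (φ x)‖ ∂m) ≤
          (1 + 320 * Real.pi * (5 * Cp + 18432)) * (∫ x, nearF s (φ x) * ‖q (φ x)‖ ∂m) := by
        apply mul_le_mul_of_nonneg_right _ hI0
        nlinarith
      nlinarith

end Pool.Agent.RankOne
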